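import Pool.Agent.Q209.DSp.HFCw

/-!
# Under CH some HFC_w space is not dually discrete

Assume CH. We construct a matrix `M : ω₁ × ω₁ → 2` by recursion and take the points
`x_ξ = M ξ · ∈ 2^ω₁`. At stage `γ`:

* the new point `x_γ` restricted to `γ` is generic for countably many tasks, except that it vanishes
  on a set `D γ ⊆ γ` such that `{x_ξ : ξ ∈ D γ}` is a finite union of discrete sets (in the topology
  given by the coordinates below `γ`); each countable finite union of discrete sets is some `D γ`;
* the new coordinate, restricted to the old points, is generic for countably many tasks;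
* `x_γ(γ) = 1`.

The neighbourhood assignment `U ξ = {x : x(ξ) = 1}` has no discrete kernel, as `x_γ ∉ U ξ` for
`ξ ∈ D γ`. As the columns are generic, each family of pairwise disjoint `n`-tuples of points has a
countable dense subfamily (in `X ^ n`), in particular discrete families are countable. If `F` is an
uncountable family of disjoint `n`-element sets, consider the iterated derivatives of `F` as a subset
of `X ^ n`. They are uncountable, so there is a countable `F₀ ⊆ F` such that infinitely many members
of `F₀` lie outside any given finite union of discrete families, in particular infinitely many are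
disjoint from `D γ`. Hence for all large `γ` the generic point `x_γ` realizes each pattern on a member
of `F₀`.
-/

set_option autoImplicit false

namespace Pool.Agent.Results.MP_63e8ca_gt.HFCwNotDuallyDiscrete

open Cardinal Q209.DSp

/-- Under CH there is an `HFC_w` subspace `X` of `2^ω₁` which is not dually discrete. Moreover `X` is
hereditarily Lindelöf, hereditarily separable, and some neighbourhood assignment on `X` has no
kernel which is a finite union of discrete sets. -/
theorem result (hCH : continuum.{0} = aleph 1) :
    ∃ X : Set ((aleph 1).ord.ToType → Bool),
      HFCw X ∧ ¬ DuallyDiscrete X ∧ HereditarilyLindelofSpace X ∧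
      (∀ t : Set X, ∃ c ⊆ t, c.Countable ∧ t ⊆ closure c) ∧
      ∃ U : X → Set X, (∀ x, IsOpen (U x) ∧ x ∈ U x) ∧
        ∀ (m : ℕ) (D : Fin m → Set X), (∀ j, DiscreteTopology (D j)) →
          (⋃ j, ⋃ x ∈ D j, U x) ≠ Set.univ := by
  obtain ⟨M, hM⟩ := exists_mat hCH
  exact ⟨Set.range M, hfcw_range hM, not_duallyDiscrete hM, hl hM, hsep hM, nb M,
    fun x => ⟨nb_open x, nb_mem hM x⟩, not_kernel hM⟩

end Pool.Agent.Results.MP_63e8ca_gt.HFCwNotDuallyDiscrete
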